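import Pool.Agent.W812.RB.Stm

set_option autoImplicit false

open Filter Finset

namespace Pool.Agent.W310.RB

open Pool.Agent.W812.RB

/-- the conditions which hold for large `s` -/
theorem eventually_conds (κ ε K c' P X : ℝ) (hκ : 0 < κ) (hε : 0 < ε) (hc' : 0 ≤ c') :
    ∃ s₀ : ℝ, ∀ s : ℝ, s₀ ≤ s → 1 ≤ s ∧ P ≤ κ * s ∧
      20 * κ * s ^ 3 + X + 2 ≤ Real.exp (s / (2 * κ)) / 2 - 1 ∧
      2 * κ * (Real.log 8 + 2 * Real.log s) ≤ (ε / 16) ^ 2 * s ∧
      (2 * κ * c' + 1) * s ≤ Real.exp (ε / 4 * s) ∧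
      K ≤ ε / 4 * s := by
  have e1 : ∀ᶠ s : ℝ in atTop, (1 : ℝ) ≤ s := eventually_ge_atTop 1
  have e2 : ∀ᶠ s : ℝ in atTop, P / κ ≤ s := eventually_ge_atTop _
  have e6 : ∀ᶠ s : ℝ in atTop, K / (ε / 4) ≤ s := eventually_ge_atTop _
  have e7 : ∀ᶠ s : ℝ in atTop, 2 * κ * Real.log 8 / ((ε / 16) ^ 2 / 2) ≤ s :=
    eventually_ge_atTop _
  have e8 : ∀ᶠ s : ℝ in atTop, ‖Real.log s‖ ≤ ((ε / 16) ^ 2 / 2 / (4 * κ)) * ‖s‖ :=
    Real.isLittleO_log_id_atTop.def (by positivity)
  have e9 : ∀ᶠ s : ℝ in atTop, ‖s ^ 1‖ ≤ (1 / (2 * κ * c' + 1)) * ‖Real.exp (ε / 4 * s)‖ :=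
    (isLittleO_pow_exp_pos_mul_atTop 1 (by positivity)).def (by positivity)
  have e10 : ∀ᶠ s : ℝ in atTop, ‖s ^ 3‖ ≤ (1 / (80 * κ)) * ‖Real.exp (1 / (2 * κ) * s)‖ :=
    (isLittleO_pow_exp_pos_mul_atTop 3 (by positivity)).def (by positivity)
  have e11 : ∀ᶠ s : ℝ in atTop, 2 * κ * (4 * (|X| + 3)) ≤ s := eventually_ge_atTop _
  obtain ⟨s₀, h⟩ := (e1.and (e2.and (e6.and (e7.and (e8.and (e9.and (e10.and e11))))))).exists_forall_of_atTop
  refine ⟨s₀, fun s hs => ?_⟩
  obtain ⟨h1, h2, h6, h7, h8, h9, h10, h11⟩ := h s hs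
  have hs0 : 0 < s := by linarith
  refine ⟨h1, ?_, ?_, ?_, ?_, ?_⟩
  · rw [div_le_iff₀ hκ] at h2; linarith
  · have hs3 : 0 ≤ s ^ 3 := by positivity
    rw [Real.norm_of_nonneg hs3, Real.norm_of_nonneg (Real.exp_pos _).le] at h10
    have e : 1 / (2 * κ) * s = s / (2 * κ) := by ring
    rw [e] at h10
    have h12 : 80 * κ * s ^ 3 ≤ Real.exp (s / (2 * κ)) := by
      calc 80 * κ * s ^ 3 ≤ 80 * κ * (1 / (80 * κ) * Real.exp (s / (2 * κ))) :=
            mul_le_mul_of_nonneg_left h10 (by positivity)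
        _ = _ := by field_simp
    have h13 : 4 * (|X| + 3) ≤ Real.exp (s / (2 * κ)) := by
      have h14 : 4 * (|X| + 3) ≤ s / (2 * κ) := by
        rw [le_div_iff₀ (by positivity)]; linarith
      have h15 := Real.add_one_le_exp (s / (2 * κ))
      linarith
    have hX := le_abs_self X
    linarith
  · rw [div_le_iff₀ (by positivity)] at h7
    rw [Real.norm_of_nonneg (Real.log_nonneg h1), Real.norm_of_nonneg hs0.le] at h8
    have h12 : 4 * κ * Real.log s ≤ 4 * κ * ((ε / 16) ^ 2 / 2 / (4 * κ) * s) :=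
      mul_le_mul_of_nonneg_left h8 (by positivity)
    have h13 : 4 * κ * ((ε / 16) ^ 2 / 2 / (4 * κ) * s) = (ε / 16) ^ 2 / 2 * s := by
      field_simp
    rw [h13] at h12
    linarith
  · rw [pow_one, Real.norm_of_nonneg hs0.le, Real.norm_of_nonneg (Real.exp_pos _).le] at h9
    have hpos : 0 < 2 * κ * c' + 1 := by positivity
    calc (2 * κ * c' + 1) * s ≤ (2 * κ * c' + 1) * (1 / (2 * κ * c' + 1) * Real.exp (ε / 4 * s)) :=
          mul_le_mul_of_nonneg_left h9 hpos.le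
      _ = _ := by field_simp
  · rw [div_le_iff₀ (by positivity)] at h6; linarith

set_option maxHeartbeats 2000000 in
theorem main (hp : ProdStm) (hi : IntegerStm) (hq : PrimesStm) : MainStm := by
  intro c C hc hc1 hB hC
  obtain ⟨d, C', p₀, hd, hP⟩ := hp c hc hB
  obtain ⟨X₀, hX⟩ := hq
  have hlam : 0 < Real.log (1 / c) := Real.log_pos (by rw [lt_div_iff₀ hc]; linarith)
  set lam := Real.log (1 / c) with hlamdef
  set κ : ℝ := Real.sqrt (2 / lam) with hκdef
  have hκ : 0 < κ := Real.sqrt_pos.mpr (by positivity)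
  have hκ2 : lam * κ ^ 2 = 2 := by
    rw [hκdef, Real.sq_sqrt (by positivity)]; field_simp
  have hsq : Real.sqrt (2 * lam) = lam * κ := by
    rw [show 2 * lam = (lam * κ) ^ 2 by nlinarith [hκ2], Real.sqrt_sq (by positivity)]
  set ε : ℝ := C - 2 * Real.sqrt (2 * lam) with hεdef
  have hε : 0 < ε := by linarith
  obtain ⟨s₀, hs₀⟩ := eventually_conds κ ε (lam * d + Real.log 4) (C' : ℝ)
    ((d : ℝ) + p₀ + 1) (X₀ : ℝ) hκ hε (by positivity)
  refine ⟨⌈Real.exp ((max s₀ 1) ^ 2)⌉₊, fun N hN => ?_⟩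
  have hN1 : Real.exp ((max s₀ 1) ^ 2) ≤ (N : ℝ) := (Nat.le_ceil _).trans (by exact_mod_cast hN)
  have hN0 : (0 : ℝ) < N := lt_of_lt_of_le (Real.exp_pos _) hN1
  set x : ℝ := Real.log N with hx
  have hx1 : (max s₀ 1) ^ 2 ≤ x := by
    rw [hx, Real.le_log_iff_exp_le hN0]; exact hN1
  set s : ℝ := Real.sqrt x with hs
  have hx0 : 0 ≤ x := le_trans (by positivity) hx1
  have hsx : s ^ 2 = x := Real.sq_sqrt hx0
  have hss : s₀ ≤ s := by
    refine (le_max_left s₀ 1).trans ?_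
    rw [hs]
    exact Real.le_sqrt_of_sq_le hx1
  obtain ⟨c1, c2, c3, c4, c5, c6⟩ := hs₀ s hss
  have hs0 : 0 < s := by linarith
  have hNexp : (N : ℝ) = Real.exp (s ^ 2) := by rw [hsx, hx, Real.exp_log hN0]
  have hd0 : (0 : ℝ) < d := by exact_mod_cast hd
  have hd1 : (1 : ℝ) ≤ d := by exact_mod_cast hd
  have hp0 : (0 : ℝ) ≤ p₀ := by positivity
  -- the number of blocks
  set m : ℕ := ⌈κ * s / d⌉₊ with hm
  have hm1 : κ * s ≤ (d : ℝ) * m := by
    have := Nat.le_ceil (κ * s / d)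
    rw [div_le_iff₀ hd0] at this
    rw [hm]; linarith
  have hm2 : (d : ℝ) * m ≤ κ * s + d := by
    have := Nat.ceil_lt_add_one (a := κ * s / d) (by positivity)
    rw [← hm] at this
    have h2 : (d : ℝ) * m ≤ d * (κ * s / d + 1) := mul_le_mul_of_nonneg_left this.le hd0.le
    have h3 : (d : ℝ) * (κ * s / d + 1) = κ * s + d := by field_simp
    linarith
  set D : ℕ := d * m with hD
  have hDR : (D : ℝ) = (d : ℝ) * m := by rw [hD]; push_cast; ring
  have hD1 : κ * s ≤ (D : ℝ) := by rw [hDR]; exact hm1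
  have hD2 : (D : ℝ) ≤ κ * s + d := by rw [hDR]; exact hm2
  have hD3 : (D : ℝ) ≤ 2 * (κ * s) := by linarith
  have hDone : (1 : ℝ) ≤ (D : ℝ) := by linarith
  have hD0 : (0 : ℝ) < (D : ℝ) := by linarith
  have hDn : 1 ≤ D := by exact_mod_cast hDone
  have hmD : (m : ℝ) ≤ 2 * κ * s := by
    have : (m : ℝ) ≤ (d : ℝ) * m := by nlinarith [Nat.cast_nonneg (α := ℝ) m]
    linarith
  -- the size of the primes
  set E : ℝ := Real.exp (s ^ 2 / D) with hE
  have hE0 : 0 < E := Real.exp_pos _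
  have hED : E ^ D = N := by
    rw [hE, ← Real.exp_nat_mul, hNexp]
    congr 1
    field_simp
  set X : ℕ := ⌊E / 2⌋₊ with hXdef
  have hX1 : (X : ℝ) ≤ E / 2 := Nat.floor_le (by positivity)
  have hX2 : E / 2 - 1 ≤ (X : ℝ) := (Nat.sub_one_lt_floor (E / 2)).le
  have hEl : Real.exp (s / (2 * κ)) ≤ E := by
    rw [hE]
    apply Real.exp_le_exp.mpr
    rw [div_le_div_iff₀ (by positivity) hD0]
    have h1 : s * (D : ℝ) ≤ s * (2 * (κ * s)) := mul_le_mul_of_nonneg_left hD3 hs0.le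
    have h2 : s * (2 * (κ * s)) = s ^ 2 * (2 * κ) := by ring
    linarith
  have hX3 : 20 * κ * s ^ 3 + X₀ + 2 ≤ (X : ℝ) := by linarith
  have hX0R : (0 : ℝ) ≤ X₀ := by positivity
  have hks3 : 0 ≤ 20 * κ * s ^ 3 := by positivity
  have hXX₀ : X₀ ≤ X := by
    have : (X₀ : ℝ) ≤ X := by linarith
    exact_mod_cast this
  have hX4 : (2 : ℝ) ≤ X := by linarith
  have hXpos : (0 : ℝ) < X := by linarith
  set L : ℝ := Real.log X with hL
  have hL0 : 0 < L := Real.log_pos (by linarith)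
  have hLx : L ≤ s ^ 2 := by
    have h1 : L ≤ Real.log E := Real.log_le_log hXpos (by linarith)
    rw [hE, Real.log_exp] at h1
    have h2 : s ^ 2 / D ≤ s ^ 2 := div_le_self (by positivity) hDone
    linarith
  have hDX : (D : ℝ) ≤ X / (10 * L) := by
    rw [le_div_iff₀ (by positivity)]
    have h1 : (D : ℝ) * (10 * L) ≤ 2 * (κ * s) * (10 * s ^ 2) :=
      mul_le_mul hD3 (by linarith) (by positivity) (by positivity)
    have h2 : 2 * (κ * s) * (10 * s ^ 2) = 20 * κ * s ^ 3 := by ring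
    linarith
  obtain ⟨f, hf, hfne⟩ := hX X hXX₀ D hDX
  have hDX2 : 5 * (D : ℝ) ≤ X / (2 * L) := by
    rw [le_div_iff₀ (by positivity)] at hDX ⊢
    linarith
  have hfp : ∀ i < D, p₀ ≤ f i := by
    intro i hi'
    have h1 := (hf i hi').2.2.1
    have h2 : (p₀ : ℝ) ≤ f i := by linarith
    exact_mod_cast h2
  obtain ⟨S, hS1, hS2⟩ := hP m X f
    (fun i hi' => ⟨(hf i hi').2.1, hfp i hi', (hf i hi').2.2.2⟩)
    (fun i hi' j hj' hij => (Nat.coprime_primes (hf i hi').1 (hf j hj').1).mpr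
      (hfne i hi' j hj' hij))
  obtain ⟨M, k, hM, hk1, hk2⟩ : ∃ M k : ℕ, M = ∏ i ∈ range (d * m), f i ∧
      c ^ D * (M : ℝ) ≤ k ∧ (Odd M → ∀ a, k * rothNumberNat a ≤
        (m * C' * X ^ 2 + 1) * rothNumberNat (2 * M * a)) :=
    ⟨_, S.card, rfl, hS2, fun h a => hi _ _ a S h hS1⟩
  clear hS1 hS2
  have hModd : Odd M := by
    rw [hM]
    refine Finset.prod_induction f Odd (fun a b ha hb => ha.mul hb) odd_one ?_
    intro i hi'
    exact (hf i (mem_range.mp hi')).2.1
  have hMle : (M : ℝ) * 2 ^ D ≤ N := by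
    have h1 : (M : ℝ) ≤ (E / 2) ^ D := by
      rw [hM, Nat.cast_prod]
      calc ∏ i ∈ range (d * m), (f i : ℝ) ≤ ∏ i ∈ range (d * m), (E / 2) := by
            refine Finset.prod_le_prod (fun i _ => by positivity) (fun i hi' => ?_)
            have h2 : (f i : ℝ) ≤ X := by exact_mod_cast (hf i (mem_range.mp hi')).2.2.2
            linarith
        _ = (E / 2) ^ D := by rw [prod_const, card_range]
    have h2 : (E / 2) ^ D * 2 ^ D = N := by
      rw [← mul_pow, div_mul_cancel₀ _ (by norm_num : (2 : ℝ) ≠ 0), hED]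
    calc (M : ℝ) * 2 ^ D ≤ (E / 2) ^ D * 2 ^ D :=
          mul_le_mul_of_nonneg_right h1 (by positivity)
      _ = N := h2
  have hMge : (X / (2 * L)) ^ D ≤ (M : ℝ) := by
    rw [hM, Nat.cast_prod]
    calc (X / (2 * L)) ^ D = ∏ i ∈ range (d * m), (X / (2 * L)) := by
          rw [prod_const, card_range]
      _ ≤ _ := by
          refine Finset.prod_le_prod (fun i _ => by positivity) (fun i hi' => ?_)
          exact (hf i (mem_range.mp hi')).2.2.1.le
  have hMpos : (0 : ℝ) < M := lt_of_lt_of_le (by positivity) hMge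
  have hMposn : 0 < M := by exact_mod_cast hMpos
  have h2M : 2 * M ≤ N := by
    have h1 : (2 : ℝ) ≤ 2 ^ D := by
      calc (2 : ℝ) = 2 ^ 1 := by norm_num
        _ ≤ 2 ^ D := pow_le_pow_right₀ (by norm_num) hDn
    have h2 : (M : ℝ) * 2 ≤ N := le_trans (mul_le_mul_of_nonneg_left h1 hMpos.le) hMle
    have h3 : ((2 * M : ℕ) : ℝ) ≤ N := by push_cast; linarith
    exact_mod_cast h3
  set a : ℕ := N / (2 * M) with ha
  have ha1 : 2 * M * a ≤ N := Nat.mul_div_le N (2 * M)
  have ha2 : 1 ≤ a := (Nat.one_le_div_iff (by positivity)).mpr h2M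
  have ha3 : N ≤ 4 * M * a := by
    have h1 : N < 2 * M * (a + 1) := Nat.lt_mul_div_succ N (by positivity)
    have h2 : 2 * M * (a + 1) ≤ 2 * M * (2 * a) := Nat.mul_le_mul_left _ (by omega)
    have h3 : 2 * M * (2 * a) = 4 * M * a := by ring
    omega
  have haR : (N : ℝ) ≤ 4 * M * a := by exact_mod_cast ha3
  have ha0 : (0 : ℝ) < a := by exact_mod_cast ha2
  -- the logarithm of a
  have hEX : E ≤ 4 * X := by linarith
  have haL : (a : ℝ) ≤ (8 * L) ^ D := by
    have h1 : (N : ℝ) ≤ (4 * X) ^ D := by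
      rw [← hED]; exact pow_le_pow_left₀ hE0.le hEX D
    have h2 : (M : ℝ) * a ≤ N := by
      have : ((2 * M * a : ℕ) : ℝ) ≤ N := by exact_mod_cast ha1
      push_cast at this
      nlinarith
    have h3 : (X / (2 * L)) ^ D * a ≤ (4 * X) ^ D :=
      (mul_le_mul_of_nonneg_right hMge ha0.le).trans (h2.trans h1)
    have h4 : (4 * X : ℝ) ^ D = (X / (2 * L)) ^ D * (8 * L) ^ D := by
      rw [← mul_pow]
      congr 1
      field_simp
      ring
    rw [h4] at h3
    exact le_of_mul_le_mul_left h3 (by positivity)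
  have hlog8 : 0 ≤ Real.log 8 := Real.log_nonneg (by norm_num)
  have hlogs : 0 ≤ Real.log s := Real.log_nonneg c1
  have hloga : Real.log a ≤ (ε / 16 * s) ^ 2 := by
    have h1 : Real.log a ≤ D * Real.log (8 * L) := by
      rw [← Real.log_pow]
      exact Real.log_le_log ha0 haL
    have h2 : Real.log (8 * L) ≤ Real.log 8 + 2 * Real.log s := by
      have h3 : Real.log (8 * L) ≤ Real.log (8 * s ^ 2) :=
        Real.log_le_log (by positivity) (by linarith)
      have h4 : Real.log (8 * s ^ 2) = Real.log 8 + 2 * Real.log s := by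
        rw [Real.log_mul (by norm_num) (by positivity), Real.log_pow]
        push_cast
        ring
      rw [← h4]
      exact h3
    have h3 : (D : ℝ) * Real.log (8 * L) ≤ 2 * (κ * s) * (Real.log 8 + 2 * Real.log s) := by
      calc (D : ℝ) * Real.log (8 * L) ≤ D * (Real.log 8 + 2 * Real.log s) :=
            mul_le_mul_of_nonneg_left h2 hD0.le
        _ ≤ _ := mul_le_mul_of_nonneg_right hD3 (by positivity)
    have h4 : s * (2 * κ * (Real.log 8 + 2 * Real.log s)) ≤ s * ((ε / 16) ^ 2 * s) :=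
      mul_le_mul_of_nonneg_left c4 hs0.le
    have h5 : s * (2 * κ * (Real.log 8 + 2 * Real.log s))
      = 2 * (κ * s) * (Real.log 8 + 2 * Real.log s) := by ring
    have h6 : s * ((ε / 16) ^ 2 * s) = (ε / 16 * s) ^ 2 := by ring
    linarith
  have hsqa : Real.sqrt (Real.log a) ≤ ε / 16 * s := by
    rw [Real.sqrt_le_left (by positivity)]
    exact hloga
  have hra : (a : ℝ) * Real.exp (-(ε / 4 * s)) ≤ rothNumberNat a := by
    refine le_trans ?_ (Behrend.roth_lower_bound (N := a))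
    refine mul_le_mul_of_nonneg_left ?_ ha0.le
    apply Real.exp_le_exp.mpr
    linarith
  -- the bound
  have hbound := hk2 hModd a
  have hmono : rothNumberNat (2 * M * a) ≤ rothNumberNat N := rothNumberNat.monotone ha1
  have hb2 : (k : ℝ) * rothNumberNat a ≤ ((m : ℝ) * C' * X ^ 2 + 1) * rothNumberNat N := by
    have h1 : k * rothNumberNat a ≤ (m * C' * X ^ 2 + 1) * rothNumberNat N :=
      hbound.trans (Nat.mul_le_mul_left _ hmono)
    exact_mod_cast h1
  have hrN : (0 : ℝ) ≤ rothNumberNat N := by positivity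
  have hXE : ((m : ℝ) * C' * X ^ 2 + 1) ≤ Real.exp (ε / 4 * s) * Real.exp (lam * κ * s) := by
    have h1 : (1 : ℝ) ≤ X ^ 2 := one_le_pow₀ (by linarith)
    have h2 : (X : ℝ) ^ 2 ≤ Real.exp (lam * κ * s) := by
      have h3 : (X : ℝ) ^ 2 ≤ E ^ 2 := pow_le_pow_left₀ hXpos.le (by linarith) 2
      refine h3.trans ?_
      rw [hE, ← Real.exp_nat_mul]
      apply Real.exp_le_exp.mpr
      push_cast
      rw [mul_div_assoc', div_le_iff₀ hD0]
      have h4 : lam * κ * s * (κ * s) ≤ lam * κ * s * D :=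
        mul_le_mul_of_nonneg_left hD1 (by positivity)
      have h5 : lam * κ * s * (κ * s) = 2 * s ^ 2 := by
        calc lam * κ * s * (κ * s) = (lam * κ ^ 2) * s ^ 2 := by ring
          _ = 2 * s ^ 2 := by rw [hκ2]
      linarith
    have h3 : (m : ℝ) * C' + 1 ≤ Real.exp (ε / 4 * s) := by
      refine le_trans ?_ c5
      have h4 : (m : ℝ) * C' ≤ 2 * κ * s * C' := mul_le_mul_of_nonneg_right hmD (by positivity)
      have h5 : (2 * κ * C' + 1) * s = 2 * κ * s * C' + s := by ring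
      linarith
    calc (m : ℝ) * C' * X ^ 2 + 1 ≤ (m : ℝ) * C' * X ^ 2 + X ^ 2 := by linarith
      _ = ((m : ℝ) * C' + 1) * X ^ 2 := by ring
      _ ≤ Real.exp (ε / 4 * s) * Real.exp (lam * κ * s) :=
          mul_le_mul h3 h2 (by positivity) (Real.exp_pos _).le
  have hcD : Real.exp (-(lam * κ * s) - lam * d) ≤ c ^ D := by
    have h1 : c = Real.exp (-lam) := by
      rw [hlamdef, one_div, Real.log_inv, neg_neg, Real.exp_log hc]
    rw [h1, ← Real.exp_nat_mul]
    apply Real.exp_le_exp.mpr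
    have h2 : lam * (D : ℝ) ≤ lam * (κ * s + d) := mul_le_mul_of_nonneg_left hD2 hlam.le
    have h3 : lam * (κ * s + d) = lam * κ * s + lam * d := by ring
    linarith
  have hfin : (N : ℝ) / 4 * Real.exp (-(lam * κ * s) - lam * d) * Real.exp (-(ε / 4 * s)) ≤
      Real.exp (ε / 4 * s) * Real.exp (lam * κ * s) * rothNumberNat N := by
    calc (N : ℝ) / 4 * Real.exp (-(lam * κ * s) - lam * d) * Real.exp (-(ε / 4 * s))
        ≤ (M * a) * c ^ D * Real.exp (-(ε / 4 * s)) := by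
          refine mul_le_mul_of_nonneg_right ?_ (Real.exp_pos _).le
          exact mul_le_mul (by linarith) hcD (Real.exp_pos _).le (by positivity)
      _ = (c ^ D * M) * (a * Real.exp (-(ε / 4 * s))) := by ring
      _ ≤ k * rothNumberNat a := mul_le_mul hk1 hra (by positivity) (by positivity)
      _ ≤ _ := hb2.trans (mul_le_mul_of_nonneg_right hXE hrN)
  have hlast : (N : ℝ) * Real.exp (-(lam * κ * s) - lam * d - Real.log 4 - ε / 4 * s - ε / 4 * s
      - lam * κ * s) ≤ rothNumberNat N := by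
    generalize lam * κ * s = A at *
    generalize lam * (d : ℝ) = B' at *
    generalize ε / 4 * s = T at *
    have e1 : Real.exp (-A - B' - Real.log 4 - T - T - A) * (4 * (Real.exp T * Real.exp A))
        = Real.exp (-A - B') * Real.exp (-T) := by
      have e2 : (4 : ℝ) * (Real.exp T * Real.exp A) = Real.exp (Real.log 4 + (T + A)) := by
        rw [Real.exp_add, Real.exp_add, Real.exp_log (by norm_num)]
      rw [e2, ← Real.exp_add, ← Real.exp_add]
      congr 1
      ring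
    have e3 : (0 : ℝ) < 4 * (Real.exp T * Real.exp A) := by positivity
    refine le_of_mul_le_mul_right ?_ e3
    rw [mul_assoc, e1]
    linarith
  refine le_trans ?_ hlast
  refine mul_le_mul_of_nonneg_left ?_ hN0.le
  apply Real.exp_le_exp.mpr
  have hCe : C = ε + 2 * (lam * κ) := by rw [hεdef, hsq]; ring
  rw [hCe]
  have h7 : -(ε + 2 * (lam * κ)) * s = -(ε * s) - 2 * (lam * κ * s) := by ring
  rw [h7]
  have h8 : ε / 4 * s = ε * s / 4 := by ring
  rw [h8] at c6 ⊢
  have h9 : 0 ≤ ε * s := by positivity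
  linarith

end Pool.Agent.W310.RB
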